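import Pool.Agent.Helper42.VR.Cov

/-!
# Powers of two: the statement of the induction
-/

set_option autoImplicit false

namespace Pool.Agent.Helper42.VR

open Finset

/-- Every point of the cube `[-1, 1]^(N-1)` is a weighted average of sign vectors with pairwise
inner products at least `-1`. -/
def T (N : ℕ) : Prop :=
  ∀ (ι : Type) [Fintype ι], Fintype.card ι + 1 = N → ∀ y : ι → ℝ, (∀ i, |y i| ≤ 1) → Cov ι 1 y

/-- `y` is a weighted average of sign vectors `v` with `∑ i, k i * v i * v' i ≥ -D` pairwise. -/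
def GCov (ι : Type) [Fintype ι] (k : ι → ℝ) (D : ℝ) (y : ι → ℝ) : Prop :=
  ∃ (J : Type) (_ : Fintype J) (w : J → ℝ) (v : J → ι → ℝ), (∀ j, 0 ≤ w j) ∧ ∑ j, w j = 1 ∧
    (∀ j i, v j i = 1 ∨ v j i = -1) ∧ (∀ i, ∑ j, w j * v j i = y i) ∧
    ∀ j j', w j ≠ 0 → w j' ≠ 0 → -D ≤ ∑ i, k i * (v j i * v j' i)

end Pool.Agent.Helper42.VR
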