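import Pool.Agent.Helper42.VR.Pow.Step
import Pool.Agent.Helper42.VR.Ball

/-!
# Near the center one Hadamard matrix suffices
-/

set_option autoImplicit false

namespace Pool.Agent.Helper42.VR

open Finset

/-- `f` is within `C` of a constant in the `ℓ¹` norm. -/
def NearConst {α : Type} [Fintype α] (C : ℝ) (f : α → ℝ) : Prop := ∃ t : ℝ, ∑ a, |f a - t| ≤ C

theorem NearConst.add {α : Type} [Fintype α] {C D : ℝ} {f g : α → ℝ} (hf : NearConst C f)
    (hg : NearConst D g) : NearConst (C + D) (fun a => f a + g a) := by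
  obtain ⟨s, hs⟩ := hf
  obtain ⟨t, ht⟩ := hg
  refine ⟨s + t, ?_⟩
  calc ∑ a, |f a + g a - (s + t)| ≤ ∑ a, (|f a - s| + |g a - t|) := by
        refine Finset.sum_le_sum fun a _ => ?_
        have : f a + g a - (s + t) = (f a - s) + (g a - t) := by ring
        rw [this]
        exact abs_add_le _ _
    _ = ∑ a, |f a - s| + ∑ a, |g a - t| := Finset.sum_add_distrib
    _ ≤ C + D := add_le_add hs ht

theorem NearConst.smul {α : Type} [Fintype α] {C c : ℝ} {f : α → ℝ} (hc : 0 ≤ c)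
    (hf : NearConst C f) : NearConst (c * C) (fun a => c * f a) := by
  obtain ⟨s, hs⟩ := hf
  refine ⟨c * s, ?_⟩
  calc ∑ a, |c * f a - c * s| = ∑ a, c * |f a - s| := by
        refine Finset.sum_congr rfl fun a _ => ?_
        rw [← mul_sub, abs_mul, abs_of_nonneg hc]
    _ = c * ∑ a, |f a - s| := by rw [Finset.mul_sum]
    _ ≤ c * C := mul_le_mul_of_nonneg_left hs hc

theorem NearConst.mono {α : Type} [Fintype α] {C D : ℝ} {f : α → ℝ} (h : C ≤ D)
    (hf : NearConst C f) : NearConst D f := by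
  obtain ⟨s, hs⟩ := hf
  exact ⟨s, hs.trans h⟩

theorem NearConst.congr {α : Type} [Fintype α] {C : ℝ} {f g : α → ℝ} (h : ∀ a, f a = g a)
    (hf : NearConst C f) : NearConst C g := by
  have : f = g := funext h
  rwa [this] at hf

theorem NearConst.zero {α : Type} [Fintype α] : NearConst (0 : ℝ) (fun _ : α => (0 : ℝ)) :=
  ⟨0, by simp⟩

theorem NearConst.sum {α κ : Type} [Fintype α] (s : Finset κ) {C : κ → ℝ} {f : κ → α → ℝ}
    (hf : ∀ k ∈ s, NearConst (C k) (f k)) :
    NearConst (∑ k ∈ s, C k) (fun a => ∑ k ∈ s, f k a) := by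
  classical
  induction s using Finset.induction_on with
  | empty => simpa using (NearConst.zero (α := α))
  | insert k s hk ih =>
    rw [Finset.sum_insert hk]
    refine NearConst.congr (fun a => (Finset.sum_insert (f := fun k => f k a) hk).symm) ?_
    exact (hf k (Finset.mem_insert_self k s)).add
      (ih fun l hl => hf l (Finset.mem_insert_of_mem hl))

/-- Summation by parts. -/
theorem abel_tail (z : ℕ → ℝ) (j m : ℕ) :
    ∑ b ∈ range m, (if j < b then z b - z (b + 1) else 0) = if j + 1 ≤ m then z (j + 1) - z m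
      else 0 := by
  induction m with
  | zero => simp
  | succ m ih =>
    rw [Finset.sum_range_succ, ih]
    rcases lt_trichotomy (j + 1) (m + 1) with h | h | h
    · rw [if_pos (by omega : j + 1 ≤ m), if_pos (by omega : j < m), if_pos (by omega)]
      ring
    · have : j = m := by omega
      subst this
      simp
    · rw [if_neg (by omega), if_neg (by omega), if_neg (by omega)]
      ring

/-- The parameter of the frame: how much of the first vector is given to the others. -/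
theorem frame_param {A B E Q : ℝ} (hA : 0 ≤ A) (hB : 0 ≤ B) (hE : 0 ≤ E) (hQ : 0 ≤ Q)
    (h1 : A + B + E + Q ≤ 1) (h2 : A + 2 * B + 3 * E + 4 * Q ≤ 2) :
    ∃ θ : ℝ, 0 ≤ θ ∧ θ ≤ 1 ∧ θ * (E + 2 * Q) ≤ A ∧
      (A - θ * (E + 2 * Q)) + B + E * (3 / 2 + θ / 2) + Q * (2 + θ) ≤ 1 := by
  by_cases h : A < E + 2 * Q
  · have hpos : 0 < E + 2 * Q := lt_of_le_of_lt hA h
    have hm : A / (E + 2 * Q) * (E + 2 * Q) = A := div_mul_cancel₀ A hpos.ne'
    refine ⟨A / (E + 2 * Q), div_nonneg hA hpos.le, (div_le_one hpos).2 h.le, hm.le, ?_⟩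
    rw [hm]
    set θ := A / (E + 2 * Q) with hθ
    have h3 : E * (3 / 2 + θ / 2) + Q * (2 + θ) = 3 / 2 * E + 2 * Q + A / 2 := by
      rw [← hm]
      ring
    linarith
  · refine ⟨1, by norm_num, le_refl 1, by linarith [not_lt.1 h], ?_⟩
    linarith

/-- Near the center one Hadamard matrix suffices. -/
theorem cov_frame {n : ℕ} (hn : 4 ≤ n) {v : Fin (n + 1) → Fin n → ℝ}
    (h1 : ∀ i j, v i j = 1 ∨ v i j = -1) (h2 : ∀ i k, i ≠ k → ∑ j, v i j * v k j = -1)
    (h3 : ∀ j, ∑ i, v i j = 0)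
    (h4 : ∀ j l, ∑ i, v i j * v i l = if j = l then (n : ℝ) + 1 else 0)
    (S : ℕ → Fin (n + 1) → ℝ) (hS : ∀ b a, S b a = ∑ j : Fin n, if (j : ℕ) < b then v a j else 0)
    (c2 : ∑ a, |S 2 a| ≤ n + 1) (c3 : ∑ a, |S 3 a| ≤ 3 / 2 * (n + 1))
    (c13 : ∑ a, |S 1 a + S 3 a| ≤ 2 * (n + 1))
    (c4 : ∀ b, 4 ≤ b → b ≤ n → ∃ t, ∑ a, |S b a - t| ≤ 2 * (n + 1))
    (c5 : ∀ b, 4 ≤ b → b ≤ n → ∃ t, ∑ a, |2 * S 1 a + S b a - t| ≤ 3 * (n + 1))
    {x : ℕ → ℝ} (hx : Antitone x) (h0 : ∀ k, 0 ≤ x k) (hx1 : ∀ k, x k ≤ 1)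
    (hs : x 1 + x 2 + x 3 + x 4 ≤ 2) : Cov (Fin n) 1 (fun i => x (i + 1)) := by
  classical
  have hn0 : (0 : ℝ) < (n : ℝ) + 1 := by positivity
  set z : ℕ → ℝ := fun b => if b ≤ n then x b else 0 with hz
  have hzn : ∀ b, 0 ≤ z b := by
    intro b
    simp only [hz]
    split_ifs
    · exact h0 b
    · exact le_refl 0
  have hd : ∀ b, 0 ≤ z b - z (b + 1) := by
    intro b
    simp only [hz]
    by_cases hb : b + 1 ≤ n
    · rw [if_pos (by omega : b ≤ n), if_pos hb]
      exact sub_nonneg.2 (hx (Nat.le_succ b))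
    · rw [if_neg hb, sub_zero]
      exact hzn b
  -- summation by parts
  have habel : ∀ a, ∑ j : Fin n, x (j + 1) * v a j
      = ∑ b ∈ range (n + 1), (z b - z (b + 1)) * S b a := by
    intro a
    have h5 : ∀ b ∈ range (n + 1), (z b - z (b + 1)) * S b a
        = ∑ j : Fin n, (if (j : ℕ) < b then z b - z (b + 1) else 0) * v a j := by
      intro b _
      rw [hS, Finset.mul_sum]
      refine Finset.sum_congr rfl fun j _ => ?_
      split_ifs <;> ring
    rw [Finset.sum_congr rfl h5, Finset.sum_comm]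
    refine Finset.sum_congr rfl fun j _ => ?_
    rw [← Finset.sum_mul, abel_tail, if_pos (by have := j.2; omega)]
    have h6 : z ((j : ℕ) + 1) = x ((j : ℕ) + 1) := by
      simp only [hz]
      rw [if_pos (by have := j.2; omega)]
    have h7 : z (n + 1) = 0 := by
      simp only [hz]
      rw [if_neg (by omega)]
    rw [h6, h7, sub_zero]
  -- the first four terms apart
  have hz1 : z 1 = x 1 := by simp only [hz]; rw [if_pos (by omega)]
  have hz2 : z 2 = x 2 := by simp only [hz]; rw [if_pos (by omega)]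
  have hz3 : z 3 = x 3 := by simp only [hz]; rw [if_pos (by omega)]
  have hz4 : z 4 = x 4 := by simp only [hz]; rw [if_pos (by omega)]
  have hzN : z (n + 1) = 0 := by simp only [hz]; rw [if_neg (by omega)]
  have hS0 : ∀ a, S 0 a = 0 := by
    intro a
    rw [hS]
    simp
  have hsplit : ∀ g : ℕ → ℝ, ∑ b ∈ range (n + 1), g b
      = g 0 + g 1 + g 2 + g 3 + ∑ b ∈ Ico 4 (n + 1), g b := by
    intro g
    rw [Finset.range_eq_Ico, ← Finset.sum_Ico_consecutive g (by omega : 0 ≤ 4)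
      (by omega : 4 ≤ n + 1)]
    congr 1
    rw [← Finset.range_eq_Ico]
    simp [Finset.sum_range_succ]
  have hQ : ∑ b ∈ Ico 4 (n + 1), (z b - z (b + 1)) = x 4 := by
    have h5 := abel_tail z 3 (n + 1)
    rw [if_pos (by omega), hsplit] at h5
    simp only [Nat.not_lt_zero, if_false, show ¬ (3 < 1) by omega, show ¬ (3 < 2) by omega,
      show ¬ (3 < 3) by omega, zero_add] at h5
    have h6 : ∑ b ∈ Ico 4 (n + 1), (if 3 < b then z b - z (b + 1) else 0)
        = ∑ b ∈ Ico 4 (n + 1), (z b - z (b + 1)) := by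
      refine Finset.sum_congr rfl fun b hb => ?_
      rw [if_pos (by rw [Finset.mem_Ico] at hb; omega)]
    rw [h6] at h5
    rw [h5, hzN, show 3 + 1 = 4 from rfl, hz4, sub_zero]
  have hA : 0 ≤ x 1 - x 2 := sub_nonneg.2 (hx (by norm_num))
  have hB : 0 ≤ x 2 - x 3 := sub_nonneg.2 (hx (by norm_num))
  have hE : 0 ≤ x 3 - x 4 := sub_nonneg.2 (hx (by norm_num))
  obtain ⟨θ, hθ0, hθ1, hθA, hθ⟩ := frame_param hA hB hE (h0 4)
    (by linarith [hx1 1]) (by linarith)
  -- norms
  have e1 : NearConst ((n : ℝ) + 1) (S 1) := by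
    refine ⟨0, ?_⟩
    have h5 : ∀ a ∈ (univ : Finset (Fin (n + 1))), |S 1 a - 0| = 1 := by
      intro a _
      rw [sub_zero, hS]
      have h6 : ∑ j : Fin n, (if (j : ℕ) < 1 then v a j else 0) = v a ⟨0, by omega⟩ := by
        rw [Finset.sum_eq_single (⟨0, by omega⟩ : Fin n)]
        · simp
        · intro j _ hj
          rw [if_neg]
          intro hj'
          apply hj
          ext
          simp only
          omega
        · intro h
          exact absurd (Finset.mem_univ _) h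
      rw [h6]
      rcases h1 a ⟨0, by omega⟩ with h | h <;> rw [h] <;> norm_num
    rw [Finset.sum_congr rfl h5]
    simp
  have e2 : NearConst ((n : ℝ) + 1) (S 2) := ⟨0, by simpa using c2⟩
  have e3 : NearConst (3 / 2 * ((n : ℝ) + 1)) (S 3) := ⟨0, by simpa using c3⟩
  have e13 : NearConst (2 * ((n : ℝ) + 1)) (fun a => S 1 a + S 3 a) := ⟨0, by simpa using c13⟩
  have t1 := e1.smul (sub_nonneg.2 hθA)
  have t2 := e2.smul hB
  have t3 := ((e3.smul (sub_nonneg.2 hθ1)).add (e13.smul hθ0)).smul hE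
  have t4 := NearConst.sum (Ico 4 (n + 1))
    (C := fun b => (z b - z (b + 1)) * ((1 - θ) * (2 * ((n : ℝ) + 1)) + θ * (3 * ((n : ℝ) + 1))))
    (f := fun b a => (z b - z (b + 1)) * ((1 - θ) * S b a + θ * (2 * S 1 a + S b a)))
    (fun b hb => by
      rw [Finset.mem_Ico] at hb
      have h5 : NearConst (2 * ((n : ℝ) + 1)) (S b) := c4 b hb.1 (by omega)
      have h6 : NearConst (3 * ((n : ℝ) + 1)) (fun a => 2 * S 1 a + S b a) :=
        c5 b hb.1 (by omega)
      exact ((h5.smul (sub_nonneg.2 hθ1)).add (h6.smul hθ0)).smul (hd b))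
  have tt := ((t1.add t2).add t3).add t4
  obtain ⟨t, ht⟩ := tt
  rw [← Finset.sum_mul, hQ] at ht
  have hfin : ∀ a, ((x 1 - x 2 - θ * (x 3 - x 4 + 2 * x 4)) * S 1 a + (x 2 - x 3) * S 2 a
      + (x 3 - x 4) * ((1 - θ) * S 3 a + θ * (S 1 a + S 3 a))
      + ∑ b ∈ Ico 4 (n + 1), (z b - z (b + 1)) * ((1 - θ) * S b a + θ * (2 * S 1 a + S b a)))
      = ∑ j : Fin n, x (j + 1) * v a j := by
    intro a
    rw [habel, hsplit]
    simp only [show 0 + 1 = 1 from rfl, show 1 + 1 = 2 from rfl, show 2 + 1 = 3 from rfl,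
      show 3 + 1 = 4 from rfl, hz1, hz2, hz3, hz4, hS0, mul_zero, zero_add]
    have h7 : ∀ b ∈ Ico 4 (n + 1),
        (z b - z (b + 1)) * ((1 - θ) * S b a + θ * (2 * S 1 a + S b a))
        = (z b - z (b + 1)) * S b a + (z b - z (b + 1)) * (2 * θ * S 1 a) := fun b _ => by ring
    rw [Finset.sum_congr rfl h7, Finset.sum_add_distrib, ← Finset.sum_mul, hQ]
    ring
  refine cov_of_rows h1 h2 h3 h4 (fun i : Fin n => x ((i : ℕ) + 1)) (t / ((n : ℝ) + 1)) ?_
  have h8 : ∀ i ∈ (univ : Finset (Fin (n + 1))),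
      |(∑ j : Fin n, x ((j : ℕ) + 1) * v i j) / ((n : ℝ) + 1) - t / ((n : ℝ) + 1)|
      = |(∑ j : Fin n, x ((j : ℕ) + 1) * v i j) - t| / ((n : ℝ) + 1) := by
    intro i _
    rw [← sub_div, abs_div, abs_of_pos hn0]
  rw [Finset.sum_congr rfl h8, ← Finset.sum_div, div_le_one hn0]
  refine le_trans (le_of_eq ?_) (ht.trans ?_)
  · refine Finset.sum_congr rfl fun a _ => ?_
    rw [← hfin a]
  · have h9 := mul_le_mul_of_nonneg_right hθ hn0.le
    rw [one_mul] at h9
    refine le_trans (le_of_eq ?_) h9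
    ring

end Pool.Agent.Helper42.VR
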