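import Pool.Agent.Helper42.VR.Pow.Union

/-!
# Doubling: coordinates in pairs
-/

set_option autoImplicit false

namespace Pool.Agent.Helper42.VR

open Finset

/-- The coordinates of the pairs. -/
def gP {ι : Type} : Option (ι ⊕ ι) → Option (Option ι)
  | none => some none
  | some (Sum.inl i) => some (some i)
  | some (Sum.inr i) => some (some i)

/-- The signs. -/
def eP {ι : Type} (s : ℝ) : Option (ι ⊕ ι) → ℝ
  | none => 1
  | some (Sum.inl _) => 1
  | some (Sum.inr _) => s

theorem eP_sign {ι : Type} {s : ℝ} (hs : s = 1 ∨ s = -1) (i : Option (ι ⊕ ι)) :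
    eP s i = 1 ∨ eP s i = -1 := by
  rcases i with _ | (i | i)
  · exact Or.inl rfl
  · exact Or.inl rfl
  · exact hs

theorem sum_pairs {ι : Type} [Fintype ι] (s s' : ℝ) (u v : Option ι → ℝ) :
    ∑ i, eP s i * (gP i).elim 1 u * (eP s' i * (gP i).elim 1 v) =
      u none * v none + (1 + s * s') * ∑ i, u (some i) * v (some i) := by
  rw [Fintype.sum_option, Fintype.sum_sum_type]
  simp only [eP, gP, Option.elim_some, one_mul]
  have : ∀ i : ι, s * u (some i) * (s' * v (some i)) = s * s' * (u (some i) * v (some i)) :=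
    fun i => by ring
  simp only [this]
  rw [← Finset.mul_sum]
  ring

theorem mul_sign {a b : ℝ} (ha : a = 1 ∨ a = -1) (hb : b = 1 ∨ b = -1) :
    a * b = 1 ∨ a * b = -1 := by
  rcases ha with h | h <;> rcases hb with h' | h' <;> rw [h, h'] <;> norm_num

/-- The join of two families. -/
theorem cov_join {N : ℕ} (hT : T N) {ι : Type} [Fintype ι] (hι : Fintype.card ι + 1 = N)
    {l s t : ℝ} {a b : ι → ℝ} (hl : 0 ≤ l) (hl1 : l ≤ 1) (ha : ∀ i, |a i| ≤ l)
    (hb : ∀ i, |b i| ≤ 1 - l) (hs : |s| ≤ l) (ht : |t| ≤ 1 - l)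
    (ha' : |s| = l ∨ ∃ i, |a i| = l) (hb' : |t| = 1 - l ∨ ∃ i, |b i| = 1 - l) :
    Cov (Option (ι ⊕ ι)) 1 (fun o => o.elim (s + t)
      (Sum.elim (fun i => a i + b i) (fun i => a i - b i))) := by
  have hcard : Fintype.card (Option ι) = N := by rw [Fintype.card_option, hι]
  have hD : ∀ r : ℝ, (r = 1 ∨ r = -1) → ∀ u v : Option ι → ℝ, (∀ k, u k = 1 ∨ u k = -1) →
      (∀ k, v k = 1 ∨ v k = -1) → 0 ≤ ∑ k, u k * v k →
      -1 ≤ ∑ i, eP r i * (gP i).elim 1 u * (eP r i * (gP i).elim 1 v) := by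
    intro r hr u v hu hv huv
    rw [sum_pairs]
    rw [Fintype.sum_option] at huv
    have h1 : r * r = 1 := by rcases hr with h | h <;> rw [h] <;> norm_num
    rw [h1]
    rcases mul_sign (hu none) (hv none) with h | h <;> rw [h] at huv ⊢ <;> linarith
  have hU := PC.pushZ hT hcard (t := fun o => o.elim s a) (D := 1) hl
    (by rintro (_ | i); exacts [hs, ha i])
    (by
      rcases ha' with h | ⟨i, h⟩
      · exact ⟨none, h⟩
      · exact ⟨some i, h⟩) gP (eP 1) (eP_sign (Or.inl rfl)) (hD 1 (Or.inl rfl))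
  have hV := PC.pushZ hT hcard (t := fun o => o.elim t b) (D := 1) (sub_nonneg.2 hl1)
    (by rintro (_ | i); exacts [ht, hb i])
    (by
      rcases hb' with h | ⟨i, h⟩
      · exact ⟨none, h⟩
      · exact ⟨some i, h⟩) gP (eP (-1)) (eP_sign (Or.inr rfl)) (hD (-1) (Or.inr rfl))
  have h1 := PC.union hU hV (by
    rintro x y ⟨u, hu, rfl⟩ ⟨v, hv, rfl⟩
    rw [sum_pairs]
    rcases mul_sign (hu none) (hv none) with h | h <;> rw [h] <;> linarith)
  refine PC.toCov (PC.congr h1 (by ring) ?_)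
  rintro (_ | (i | i))
  · simp [gP, eP]
  · simp [gP, eP]
  · simp [gP, eP, sub_eq_add_neg]

theorem cov_pairs {N : ℕ} (hT : T N) {ι : Type} [Fintype ι] (hι : Fintype.card ι + 1 = N)
    (e : ℝ) (p q : ι → ℝ) (he : |e| ≤ 1) (h : ∀ i j, |p i + q i| + |p j - q j| ≤ 2) :
    Cov (Option (ι ⊕ ι)) 1 (fun o => o.elim e (Sum.elim p q)) := by
  obtain ⟨A, hA0, hA, hA'⟩ := exists_abs_max (fun i => (p i + q i) / 2)
  obtain ⟨B, hB0, hB, hB'⟩ := exists_abs_max (fun i => (p i - q i) / 2)
  have hAB : A + B ≤ 1 := by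
    rcases hA' with hA' | ⟨i, hi⟩
    · rcases hB' with hB' | ⟨j, hj⟩
      · rw [hA', hB']; norm_num
      · have h1 := h j j
        have h2 := abs_nonneg (p j + q j)
        rw [abs_div, abs_two] at hj
        rw [hA', ← hj]; linarith
    · rcases hB' with hB' | ⟨j, hj⟩
      · have h1 := h i i
        have h2 := abs_nonneg (p i - q i)
        rw [abs_div, abs_two] at hi
        rw [hB', ← hi]; linarith
      · have h1 := h i j
        rw [abs_div, abs_two] at hi hj
        rw [← hi, ← hj]; linarith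
  rw [abs_le] at he
  have key : ∀ s t : ℝ, s + t = e →
      Cov (Option (ι ⊕ ι)) 1 (fun o => o.elim (s + t)
        (Sum.elim (fun i => (p i + q i) / 2 + (p i - q i) / 2)
          (fun i => (p i + q i) / 2 - (p i - q i) / 2))) →
      Cov (Option (ι ⊕ ι)) 1 (fun o => o.elim e (Sum.elim p q)) := by
    intro s t hst h1
    have h2 : (fun i => (p i + q i) / 2 + (p i - q i) / 2) = p := by funext i; ring
    have h3 : (fun i => (p i + q i) / 2 - (p i - q i) / 2) = q := by funext i; ring
    rw [h2, h3, hst] at h1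
    exact h1
  rcases lt_or_ge e (2 * A - 1) with h1 | h1
  · -- `s` is free
    have hA2 : ∃ i, |(p i + q i) / 2| = A := hA'.resolve_left (by intro h; linarith)
    refine key (e + 1 - A) (-(1 - A)) (by ring) (cov_join hT hι hA0 (by linarith) hA
      (fun i => le_trans (hB i) (by linarith)) ?_ ?_ (Or.inr hA2) (Or.inl ?_))
    · rw [abs_le]; constructor <;> linarith
    · rw [abs_neg, abs_of_nonneg (by linarith)]
    · rw [abs_neg, abs_of_nonneg (by linarith)]
  rcases le_or_gt e (1 - 2 * B) with h2 | h2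
  · refine key ((1 + e) / 2) (-(1 - (1 + e) / 2)) (by ring) (cov_join hT hι (l := (1 + e) / 2)
      (by linarith) (by linarith) (fun i => le_trans (hA i) (by linarith))
      (fun i => le_trans (hB i) (by linarith)) ?_ ?_ (Or.inl ?_) (Or.inl ?_))
    · rw [abs_of_nonneg (by linarith)]
    · rw [abs_neg, abs_of_nonneg (by linarith)]
    · rw [abs_of_nonneg (by linarith)]
    · rw [abs_neg, abs_of_nonneg (by linarith)]
  · have hB2 : ∃ i, |(p i - q i) / 2| = B := hB'.resolve_left (by intro h; linarith)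
    refine key (1 - B) (e - 1 + B) (by ring) (cov_join hT hι (l := 1 - B) (by linarith)
      (by linarith) (fun i => le_trans (hA i) (by linarith))
      (fun i => le_trans (hB i) (by linarith)) ?_ ?_ (Or.inl ?_) (Or.inr ?_))
    · rw [abs_of_nonneg (by linarith)]
    · rw [abs_le]; constructor <;> linarith
    · rw [abs_of_nonneg (by linarith)]
    · obtain ⟨i, hi⟩ := hB2
      exact ⟨i, by rw [hi]; ring⟩

end Pool.Agent.Helper42.VR
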