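import Pool.Agent.Helper42.VR.Pow.Pairs

/-!
# Sorted coordinates and matchings
-/

set_option autoImplicit false

namespace Pool.Agent.Helper42.VR

open Finset

/-- The absolute values in decreasing order. -/
theorem exists_sorted {κ : Type} [Fintype κ] {n : ℕ} (hκ : Fintype.card κ = n) (y : κ → ℝ)
    (hy : ∀ k, |y k| ≤ 1) :
    ∃ (x : ℕ → ℝ) (e : Fin n ≃ κ), Antitone x ∧ (∀ k, 0 ≤ x k) ∧ (∀ k, x k ≤ 1) ∧
      ∀ i : Fin n, |y (e i)| = x (i + 1) := by
  classical
  let e₀ : Fin n ≃ κ := (Fintype.equivFinOfCardEq hκ).symm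
  let f : Fin n → ℝ := fun i => -|y (e₀ i)|
  let σ : Equiv.Perm (Fin n) := Tuple.sort f
  have hσ : Monotone (f ∘ σ) := Tuple.monotone_sort f
  let x : ℕ → ℝ := fun k => if h : k - 1 < n then (if k = 0 then 1 else |y (e₀ (σ ⟨k - 1, h⟩))|)
    else if k = 0 then 1 else 0
  have hx0 : x 0 = 1 := by
    simp only [x]
    split_ifs <;> rfl
  have hx1 : ∀ k (h : k < n), x (k + 1) = |y (e₀ (σ ⟨k, h⟩))| := by
    intro k h
    simp only [x]
    rw [dif_pos (by simpa using h), if_neg (Nat.succ_ne_zero k)]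
    rfl
  have hx2 : ∀ k, n ≤ k → x (k + 1) = 0 := by
    intro k h
    simp only [x]
    rw [dif_neg (by simpa using h), if_neg (Nat.succ_ne_zero k)]
  have hx3 : ∀ k, 0 ≤ x k := by
    intro k
    rcases k with _ | k
    · rw [hx0]; exact zero_le_one
    · rcases lt_or_ge k n with h | h
      · rw [hx1 k h]; exact abs_nonneg _
      · rw [hx2 k h]
  have hx4 : ∀ k, x k ≤ 1 := by
    intro k
    rcases k with _ | k
    · rw [hx0]
    · rcases lt_or_ge k n with h | h
      · rw [hx1 k h]; exact hy _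
      · rw [hx2 k h]; exact zero_le_one
  refine ⟨x, σ.trans e₀, antitone_nat_of_succ_le fun k => ?_, hx3, hx4, fun i => ?_⟩
  · rcases k with _ | k
    · rw [hx0]; exact hx4 _
    · rcases lt_or_ge (k + 1) n with h | h
      · rw [hx1 (k + 1) h, hx1 k (by omega)]
        have h1 : f (σ ⟨k, by omega⟩) ≤ f (σ ⟨k + 1, h⟩) := hσ (by simp [Fin.le_def])
        simp only [f] at h1
        linarith
      · rw [hx2 (k + 1) h]; exact hx3 _
  · rw [hx1 i i.2]
    rfl

/-- Positions `1, …, n`. -/
theorem cov_of_pos {α : Type} [Fintype α] {n : ℕ} (F : α → ℕ) (hF : Function.Injective F)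
    (h0 : ∀ a, 1 ≤ F a) (hn : ∀ a, F a ≤ n) (hcard : Fintype.card α = n) {x : ℕ → ℝ}
    (h : Cov α 1 (fun a => x (F a))) : Cov (Fin n) 1 (fun i => x (i + 1)) := by
  let G : α → Fin n := fun a => ⟨F a - 1, by have := h0 a; have := hn a; omega⟩
  have hG : Function.Injective G := by
    intro a b hab
    have h1 : F a - 1 = F b - 1 := congrArg Fin.val hab
    have := h0 a
    have := h0 b
    exact hF (by omega)
  have hG' : Function.Bijective G :=
    (Fintype.bijective_iff_injective_and_card G).2 ⟨hG, by rw [hcard, Fintype.card_fin]⟩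
  refine Cov.reindex (Equiv.ofBijective G hG').symm ?_
  have : (fun k => x (((Equiv.ofBijective G hG').symm.symm k : Fin n) + 1)) = fun a => x (F a) := by
    funext a
    have h1 : ((Equiv.ofBijective G hG').symm.symm a : Fin n) = G a := rfl
    rw [h1]
    have := h0 a
    simp only [G]
    congr 1
    omega
  rw [this]
  exact h

/-- **Matchings of the coordinates.** -/
theorem cov_match {N : ℕ} (hT : T N) (hN : 1 ≤ N) {x : ℕ → ℝ} (hx : Antitone x)
    (h0 : ∀ n, 0 ≤ x n) (h1 : ∀ n, x n ≤ 1) (f g : ℕ → ℕ)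
    (hf : ∀ t, t + 1 < N → 2 ≤ f t ∧ f t < g t ∧ g t ≤ 2 * N - 1)
    (hinj : ∀ t t', t + 1 < N → t' + 1 < N → (f t = f t' → t = t') ∧ (g t = g t' → t = t') ∧
      f t ≠ g t')
    (h : ∀ t t', t + 1 < N → t' + 1 < N → x (f t) + x (g t) + x (f t') ≤ 2 + x (g t')) :
    Cov (Fin (2 * N - 1)) 1 (fun i => x (i + 1)) := by
  have hlt : ∀ i : Fin (N - 1), (i : ℕ) + 1 < N := fun i => by have := i.2; omega
  refine cov_of_pos (α := Option (Fin (N - 1) ⊕ Fin (N - 1)))
    (fun o => o.elim 1 (Sum.elim (fun i => f i) (fun i => g i))) ?_ ?_ ?_ ?_ ?_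
  · rintro (_ | (a | a)) (_ | (b | b)) hab
    · rfl
    · have h2 : 1 = f b := hab
      have := hf b (hlt b)
      omega
    · have h2 : 1 = g b := hab
      have := hf b (hlt b)
      omega
    · have h2 : f a = 1 := hab
      have := hf a (hlt a)
      omega
    · have h2 : f a = f b := hab
      have h3 := (hinj a b (hlt a) (hlt b)).1 h2
      rw [Fin.ext h3]
    · have h2 : f a = g b := hab
      exact absurd h2 (hinj a b (hlt a) (hlt b)).2.2
    · have h2 : g a = 1 := hab
      have := hf a (hlt a)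
      omega
    · have h2 : g a = f b := hab
      exact absurd h2.symm (hinj b a (hlt b) (hlt a)).2.2
    · have h2 : g a = g b := hab
      have h3 := (hinj a b (hlt a) (hlt b)).2.1 h2
      rw [Fin.ext h3]
  · rintro (_ | (a | a))
    · exact le_rfl
    · have := hf a (hlt a)
      show 1 ≤ f a
      omega
    · have := hf a (hlt a)
      show 1 ≤ g a
      omega
  · rintro (_ | (a | a))
    · show 1 ≤ 2 * N - 1
      omega
    · have := hf a (hlt a)
      show f a ≤ 2 * N - 1
      omega
    · have := hf a (hlt a)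
      show g a ≤ 2 * N - 1
      omega
  · rw [Fintype.card_option, Fintype.card_sum, Fintype.card_fin]
    omega
  · have h2 := cov_pairs hT (ι := Fin (N - 1)) (by rw [Fintype.card_fin]; omega) (x 1)
      (fun i => x (f i)) (fun i => x (g i)) (by rw [abs_of_nonneg (h0 1)]; exact h1 1) (by
        intro i j
        have h3 := h i j (hlt i) (hlt j)
        have h4 : x (g j) ≤ x (f j) := hx (hf j (hlt j)).2.1.le
        rw [abs_of_nonneg (add_nonneg (h0 _) (h0 _)), abs_of_nonneg (sub_nonneg.2 h4)]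
        linarith)
    have h3 : (fun o : Option (Fin (N - 1) ⊕ Fin (N - 1)) =>
        x (o.elim 1 (Sum.elim (fun i => f i) (fun i => g i)))) =
        fun o => o.elim (x 1) (Sum.elim (fun i => x (f i)) (fun i => x (g i))) := by
      funext o
      rcases o with _ | (a | a) <;> rfl
    rw [h3]
    exact h2

end Pool.Agent.Helper42.VR
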