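import Pool.Agent.Helper42.VR.Pow.Sorted
import Pool.Agent.Helper93.VR.Top
import Pool.Agent.Helper76.VR.Blocks
import Pool.Agent.Helper96.VR.Seven
import Pool.Agent.Helper33.VR.Num

/-!
# The induction step
-/

set_option autoImplicit false

namespace Pool.Agent.Helper42.VR

open Finset

/-- Consecutive pairs. -/
theorem match_std {N : ℕ} (hT : T N) (hN : 1 ≤ N) {x : ℕ → ℝ} (hx : Antitone x)
    (h0 : ∀ n, 0 ≤ x n) (h1 : ∀ n, x n ≤ 1)
    (h : ∀ k, 1 ≤ k → k + 1 ≤ N → x 2 + x 3 + x (2 * k) ≤ 2 + x (2 * k + 1)) :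
    Cov (Fin (2 * N - 1)) 1 (fun i => x (i + 1)) := by
  refine cov_match hT hN hx h0 h1 (fun t => 2 * t + 2) (fun t => 2 * t + 3) ?_ ?_ ?_
  · intro t ht
    beta_reduce
    omega
  · intro t t' ht ht'
    beta_reduce
    omega
  · intro t t' ht ht'
    beta_reduce
    have h2 := h (t' + 1) (by omega) (by omega)
    rw [show 2 * (t' + 1) = 2 * t' + 2 by ring] at h2
    have h3 : x (2 * t + 2) ≤ x 2 := hx (by omega)
    have h4 : x (2 * t + 3) ≤ x 3 := hx (by omega)
    have h5 : x (2 * t' + 2 + 1) = x (2 * t' + 3) := rfl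
    rw [h5] at h2
    linarith

/-- The matching `x₂, …, x_{2m}` with `x_{2m+1}, …, x_{4m-1}`. -/
theorem match_next {N : ℕ} (hT : T N) (hN : 1 ≤ N) {x : ℕ → ℝ} (hx : Antitone x)
    (h0 : ∀ n, 0 ≤ x n) (h1 : ∀ n, x n ≤ 1) {m : ℕ} (hm : 1 ≤ m) (hmN : 2 * m ≤ N)
    (hc : ∀ k, 1 ≤ k → k + 1 ≤ N → x (2 * k) - x (2 * k + 1) ≤ x (2 * m) - x (2 * m + 1))
    (h : x 2 + x 3 + x (2 * m + 1) ≤ 2 + x (4 * m - 1)) :
    Cov (Fin (2 * N - 1)) 1 (fun i => x (i + 1)) := by
  refine cov_match hT hN hx h0 h1 (fun t => if t < 2 * m - 1 then t + 2 else 2 * t + 2)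
    (fun t => if t < 2 * m - 1 then 2 * m + 1 + t else 2 * t + 3) ?_ ?_ ?_
  · intro t ht
    beta_reduce
    split_ifs <;> omega
  · intro t t' ht ht'
    beta_reduce
    split_ifs <;> omega
  · intro t t' ht ht'
    beta_reduce
    by_cases c1 : t < 2 * m - 1 <;> by_cases c2 : t' < 2 * m - 1
    · simp only [c1, c2, if_true]
      have e1 : x (2 * m + 1 + t) ≤ x (2 * m + 1) := hx (by omega)
      have e2 : x (4 * m - 1) ≤ x (2 * m + 1 + t') := hx (by omega)
      rcases eq_or_ne t t' with ht0 | ht0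
      · subst ht0
        linarith [h1 (t + 2)]
      · have e3 : x (t + 2) + x (t' + 2) ≤ x 2 + x 3 := by
          rcases lt_or_gt_of_ne ht0 with h2 | h2
          · have := hx (show 2 ≤ t + 2 by omega)
            have := hx (show 3 ≤ t' + 2 by omega)
            linarith
          · have := hx (show 3 ≤ t + 2 by omega)
            have := hx (show 2 ≤ t' + 2 by omega)
            linarith
        linarith
    · simp only [c1, c2, if_true, if_false]
      have h2 := hc (t' + 1) (by omega) (by omega)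
      rw [show 2 * (t' + 1) = 2 * t' + 2 by ring, show 2 * t' + 2 + 1 = 2 * t' + 3 by ring] at h2
      have e1 : x (2 * m + 1 + t) ≤ x (2 * m + 1) := hx (by omega)
      linarith [h1 (t + 2), h1 (2 * m)]
    · simp only [c1, c2, if_true, if_false]
      have e1 : x (2 * t + 2) ≤ x (2 * m + 1 + t') := hx (by omega)
      linarith [h1 (2 * t + 3), h1 (t' + 2)]
    · simp only [c1, c2, if_false]
      have h2 := hc (t' + 1) (by omega) (by omega)
      rw [show 2 * (t' + 1) = 2 * t' + 2 by ring, show 2 * t' + 2 + 1 = 2 * t' + 3 by ring] at h2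
      have e1 : x (2 * t + 2) ≤ x (2 * m + 1) := hx (by omega)
      linarith [h1 (2 * t + 3), h1 (2 * m)]

/-- The matching `x₂, …, x₇` with `x_{2m-5}, …, x_{2m}`. -/
theorem match_prev {N : ℕ} (hT : T N) (hN : 1 ≤ N) {x : ℕ → ℝ} (hx : Antitone x)
    (h0 : ∀ n, 0 ≤ x n) (h1 : ∀ n, x n ≤ 1) {m : ℕ} (hm : 7 ≤ m) (hmN : m + 1 ≤ N)
    (hc : ∀ k, 1 ≤ k → k + 1 ≤ N → x (2 * k) - x (2 * k + 1) ≤ x (2 * m) - x (2 * m + 1))
    (ha : x 2 + x 3 + x (2 * m - 5) ≤ 2 + x (2 * m)) (hb : x 2 + x 8 + x 9 ≤ 2 + x (2 * m))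
    (hd : x 2 + x (2 * m - 5) + x (2 * m - 6) ≤ 2 + x (2 * m + 1))
    (he : x 8 + x 9 + x (2 * m - 6) ≤ 2 + x (2 * m + 1)) :
    Cov (Fin (2 * N - 1)) 1 (fun i => x (i + 1)) := by
  refine cov_match hT hN hx h0 h1 (fun t => if t < 6 then t + 2 else if t < m then 2 * t - 4
    else 2 * t + 2) (fun t => if t < 6 then 2 * m - 5 + t else if t < m - 1 then 2 * t - 3
    else 2 * t + 3) ?_ ?_ ?_
  · intro t ht
    beta_reduce
    split_ifs <;> omega
  · intro t t' ht ht'
    beta_reduce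
    split_ifs <;> omega
  · intro t t' ht ht'
    beta_reduce
    -- bounds of the sums and of the differences
    have hsum : (t < 6 ∧ x (if t < 6 then t + 2 else if t < m then 2 * t - 4 else 2 * t + 2) =
        x (t + 2) ∧ x (if t < 6 then 2 * m - 5 + t else if t < m - 1 then 2 * t - 3
        else 2 * t + 3) ≤ x (2 * m - 5)) ∨
        (x (if t < 6 then t + 2 else if t < m then 2 * t - 4 else 2 * t + 2) ≤ x 8 ∧
        x (if t < 6 then 2 * m - 5 + t else if t < m - 1 then 2 * t - 3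
        else 2 * t + 3) ≤ x 9) := by
      by_cases c : t < 6
      · left
        rw [if_pos c, if_pos c]
        exact ⟨c, rfl, hx (by omega)⟩
      · right
        constructor
        · apply hx
          split_ifs <;> omega
        · apply hx
          split_ifs <;> omega
    have hdiff : (t' < 6 ∧ x (if t' < 6 then t' + 2 else if t' < m then 2 * t' - 4
        else 2 * t' + 2) = x (t' + 2) ∧ x (2 * m) ≤ x (if t' < 6 then 2 * m - 5 + t'
        else if t' < m - 1 then 2 * t' - 3 else 2 * t' + 3)) ∨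
        (x (if t' < 6 then t' + 2 else if t' < m then 2 * t' - 4 else 2 * t' + 2) -
        x (if t' < 6 then 2 * m - 5 + t' else if t' < m - 1 then 2 * t' - 3
        else 2 * t' + 3) ≤ x (2 * m - 6) - x (2 * m + 1)) := by
      by_cases c : t' < 6
      · left
        rw [if_pos c, if_pos c]
        exact ⟨c, rfl, hx (by omega)⟩
      · right
        have e0 : x (2 * m) ≤ x (2 * m - 6) := hx (by omega)
        rcases lt_trichotomy t' (m - 1) with c1 | c1 | c1
        · rw [if_neg c, if_pos (by omega), if_neg c, if_pos c1]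
          have h2 := hc (t' - 2) (by omega) (by omega)
          rw [show 2 * (t' - 2) = 2 * t' - 4 by omega,
            show 2 * t' - 4 + 1 = 2 * t' - 3 by omega] at h2
          linarith
        · rw [if_neg c, if_pos (by omega), if_neg c, if_neg (by omega)]
          rw [show 2 * t' - 4 = 2 * m - 6 by omega, show 2 * t' + 3 = 2 * m + 1 by omega]
        · rw [if_neg c, if_neg (by omega), if_neg c, if_neg (by omega)]
          have h2 := hc (t' + 1) (by omega) (by omega)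
          rw [show 2 * (t' + 1) = 2 * t' + 2 by ring,
            show 2 * t' + 2 + 1 = 2 * t' + 3 by ring] at h2
          linarith
    rcases hsum with ⟨c1, s1, s2⟩ | ⟨s1, s2⟩ <;> rcases hdiff with ⟨c2, d1, d2⟩ | d1
    · rw [s1, d1]
      rcases eq_or_ne t t' with ht0 | ht0
      · subst ht0
        rw [if_pos c1] at s2 d2 ⊢
        have := h1 (t + 2)
        linarith
      · have e3 : x (t + 2) + x (t' + 2) ≤ x 2 + x 3 := by
          rcases lt_or_gt_of_ne ht0 with h2 | h2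
          · have := hx (show 2 ≤ t + 2 by omega)
            have := hx (show 3 ≤ t' + 2 by omega)
            linarith
          · have := hx (show 3 ≤ t + 2 by omega)
            have := hx (show 2 ≤ t' + 2 by omega)
            linarith
        linarith
    · rw [s1]
      have e3 : x (t + 2) ≤ x 2 := hx (by omega)
      linarith
    · rw [d1]
      have e3 : x (t' + 2) ≤ x 2 := hx (by omega)
      linarith
    · linarith

/-- The sum of the `N` largest values is large. -/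
theorem match_top {m : ℕ} (hm : 1 ≤ m) (hT : T (4 * m)) {x : ℕ → ℝ} (h0 : ∀ n, 0 ≤ x n)
    (h1 : ∀ n, x n ≤ 1) (hs : 2 * (m : ℝ) ≤ ∑ i ∈ range (4 * m), x (i + 1)) :
    Cov (Fin (8 * m - 1)) 1 (fun i => x (i + 1)) := by
  have habs : ∀ n, |x n| ≤ 1 := fun n => by rw [abs_of_nonneg (h0 n)]; exact h1 n
  have h2 := cov_top hT (ι := Fin (4 * m - 1)) (κ := Fin (4 * m))
    (by rw [Fintype.card_fin]; omega) (by rw [Fintype.card_fin])
    (fun i => x (i + 1)) (fun i => x (4 * m + 1 + i)) (fun i => habs _) (fun i => habs _)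
    (by rw [Fin.sum_univ_eq_sum_range (fun i => x (i + 1))]; exact hs)
  refine cov_of_pos (α := Fin (4 * m) ⊕ Fin (4 * m - 1))
    (Sum.elim (fun i => (i : ℕ) + 1) (fun i => 4 * m + 1 + i)) ?_ ?_ ?_ ?_ ?_
  · rintro (a | a) (b | b) hab
    · have h3 : (a : ℕ) + 1 = b + 1 := hab
      rw [Fin.ext (by omega : (a : ℕ) = b)]
    · have h3 : (a : ℕ) + 1 = 4 * m + 1 + b := hab
      have := a.2
      omega
    · have h3 : 4 * m + 1 + (a : ℕ) = b + 1 := hab
      have := b.2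
      omega
    · have h3 : 4 * m + 1 + (a : ℕ) = 4 * m + 1 + b := hab
      rw [Fin.ext (by omega : (a : ℕ) = b)]
  · rintro (a | a)
    · show 1 ≤ (a : ℕ) + 1
      omega
    · show 1 ≤ 4 * m + 1 + (a : ℕ)
      omega
  · rintro (a | a)
    · show (a : ℕ) + 1 ≤ 8 * m - 1
      have := a.2
      omega
    · show 4 * m + 1 + (a : ℕ) ≤ 8 * m - 1
      have := a.2
      omega
  · rw [Fintype.card_sum, Fintype.card_fin, Fintype.card_fin]
    omega
  · have h3 : (fun a : Fin (4 * m) ⊕ Fin (4 * m - 1) =>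
        x (Sum.elim (fun i : Fin (4 * m) => (i : ℕ) + 1)
          (fun i : Fin (4 * m - 1) => 4 * m + 1 + (i : ℕ)) a)) =
        Sum.elim (fun i : Fin (4 * m) => x ((i : ℕ) + 1))
          (fun i : Fin (4 * m - 1) => x (4 * m + 1 + (i : ℕ))) := by
      funext a
      rcases a with a | a <;> rfl
    rw [h3]
    exact h2

/-- The sum of the seven largest values is at least `5`. -/
theorem match_seven {a : ℕ} (ha : 1 ≤ a) (hT : T (2 * a)) {x : ℕ → ℝ} (h0 : ∀ n, 0 ≤ x n)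
    (h1 : ∀ n, x n ≤ 1) (hs : 5 ≤ x 1 + x 2 + x 3 + x 4 + x 5 + x 6 + x 7) :
    Cov (Fin (8 * a - 1)) 1 (fun i => x (i + 1)) := by
  have habs : ∀ n, |x n| ≤ 1 := fun n => by rw [abs_of_nonneg (h0 n)]; exact h1 n
  have h2 := cov_seven hT (ι := Fin (2 * a - 2)) (by rw [Fintype.card_fin]; omega)
    (fun i => x (i + 1)) (fun j i => x (8 + 4 * i + j)) (fun i => habs _) (fun j i => habs _)
    (by simp only [Fin.sum_univ_succ]; simp; linarith)
  refine cov_of_pos (α := Fin 7 ⊕ (Fin 4 × Fin (2 * a - 2)))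
    (Sum.elim (fun i => (i : ℕ) + 1) (fun q => 8 + 4 * (q.2 : ℕ) + q.1)) ?_ ?_ ?_ ?_ ?_
  · rintro (a' | ⟨a1, a2⟩) (b | ⟨b1, b2⟩) hab
    · have h3 : (a' : ℕ) + 1 = b + 1 := hab
      rw [Fin.ext (by omega : (a' : ℕ) = b)]
    · have h3 : (a' : ℕ) + 1 = 8 + 4 * (b2 : ℕ) + b1 := hab
      have := a'.2
      omega
    · have h3 : 8 + 4 * (a2 : ℕ) + a1 = (b : ℕ) + 1 := hab
      have := b.2
      omega
    · have h3 : 8 + 4 * (a2 : ℕ) + a1 = 8 + 4 * (b2 : ℕ) + b1 := hab
      have := a1.2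
      have := b1.2
      rw [Fin.ext (by omega : (a1 : ℕ) = b1), Fin.ext (by omega : (a2 : ℕ) = b2)]
  · rintro (a' | ⟨a1, a2⟩)
    · show 1 ≤ (a' : ℕ) + 1
      omega
    · show 1 ≤ 8 + 4 * (a2 : ℕ) + a1
      omega
  · rintro (a' | ⟨a1, a2⟩)
    · show (a' : ℕ) + 1 ≤ 8 * a - 1
      have := a'.2
      omega
    · show 8 + 4 * (a2 : ℕ) + a1 ≤ 8 * a - 1
      have := a1.2
      have := a2.2
      omega
  · rw [Fintype.card_sum, Fintype.card_prod, Fintype.card_fin, Fintype.card_fin,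
      Fintype.card_fin]
    omega
  · have h3 : (fun b : Fin 7 ⊕ (Fin 4 × Fin (2 * a - 2)) =>
        x (Sum.elim (fun i : Fin 7 => (i : ℕ) + 1)
          (fun q : Fin 4 × Fin (2 * a - 2) => 8 + 4 * (q.2 : ℕ) + q.1) b)) =
        Sum.elim (fun i : Fin 7 => x ((i : ℕ) + 1))
          (fun q : Fin 4 × Fin (2 * a - 2) => x (8 + 4 * (q.2 : ℕ) + q.1)) := by
      funext b
      rcases b with b | b <;> rfl
    rw [h3]
    exact h2

/-- Blocks of four. -/
theorem match_blocks {a : ℕ} (ha : 1 ≤ a) (hT : T (2 * a)) (hT2 : T (4 * a)) {x : ℕ → ℝ}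
    (hx : Antitone x) (h0 : ∀ n, 0 ≤ x n) (h1 : ∀ n, x n ≤ 1) {A B C : ℝ}
    (hA : (x 4 + x 5 + x 6 + x 7) / 4 ≤ A) (hA' : (1 - x 2) / 2 ≤ A)
    (hB : ∀ k, 1 ≤ k → k + 1 ≤ 2 * a →
      (x (4 * k) + x (4 * k + 1) - x (4 * k + 2) - x (4 * k + 3)) / 4 ≤ B)
    (hB' : (1 - x 1) / 2 ≤ B)
    (hC : ∀ k, 1 ≤ k → k + 1 ≤ 4 * a → (x (2 * k) - x (2 * k + 1)) / 2 ≤ C)
    (hC' : (1 - x 3) / 2 ≤ C) (h : A + B + C ≤ 1) :
    Cov (Fin (8 * a - 1)) 1 (fun i => x (i + 1)) := by
  have habs : ∀ n, |x n| ≤ 1 := fun n => by rw [abs_of_nonneg (h0 n)]; exact h1 n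
  have hT2' : T (2 * (2 * a)) := by
    rw [show 2 * (2 * a) = 4 * a by ring]
    exact hT2
  have h2 := cov_blocks hT hT2' (ι := Fin (2 * a - 1)) (by rw [Fintype.card_fin]; omega)
    ![x 1, x 2, x 3] (fun i k => x (4 * (i + 1) + k)) A B C (by
      intro i
      fin_cases i
      · exact habs 1
      · exact habs 2
      · exact habs 3) (by
      intro i
      have e0 : x (4 * ((i : ℕ) + 1) + ((0 : Fin 4) : ℕ)) ≤ x 4 := hx (by simp)
      have e1 : x (4 * ((i : ℕ) + 1) + ((1 : Fin 4) : ℕ)) ≤ x 5 := hx (by simp)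
      have e2 : x (4 * ((i : ℕ) + 1) + ((2 : Fin 4) : ℕ)) ≤ x 6 := hx (by simp)
      have e3 : x (4 * ((i : ℕ) + 1) + ((3 : Fin 4) : ℕ)) ≤ x 7 := hx (by simp)
      have p0 := h0 (4 * ((i : ℕ) + 1) + ((0 : Fin 4) : ℕ))
      have p1 := h0 (4 * ((i : ℕ) + 1) + ((1 : Fin 4) : ℕ))
      have p2 := h0 (4 * ((i : ℕ) + 1) + ((2 : Fin 4) : ℕ))
      have p3 := h0 (4 * ((i : ℕ) + 1) + ((3 : Fin 4) : ℕ))
      rw [abs_of_nonneg (by linarith)]
      linarith) (by show 1 - x 2 ≤ 2 * A; linarith) (by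
      intro i
      have hi := i.2
      have e0 := hB (i + 1) (by omega) (by omega)
      have e1 : x (4 * ((i : ℕ) + 1) + ((1 : Fin 4) : ℕ)) = x (4 * ((i : ℕ) + 1) + 1) := rfl
      have e2 : x (4 * ((i : ℕ) + 1) + ((2 : Fin 4) : ℕ)) = x (4 * ((i : ℕ) + 1) + 2) := rfl
      have e3 : x (4 * ((i : ℕ) + 1) + ((3 : Fin 4) : ℕ)) = x (4 * ((i : ℕ) + 1) + 3) := rfl
      have e4 : x (4 * ((i : ℕ) + 1) + ((0 : Fin 4) : ℕ)) = x (4 * ((i : ℕ) + 1)) := rfl
      rw [e1, e2, e3, e4]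
      have m1 : x (4 * ((i : ℕ) + 1) + 2) ≤ x (4 * ((i : ℕ) + 1)) := hx (by omega)
      have m2 : x (4 * ((i : ℕ) + 1) + 3) ≤ x (4 * ((i : ℕ) + 1) + 1) := hx (by omega)
      rw [abs_of_nonneg (by linarith)]
      linarith) (by show 1 - x 1 ≤ 2 * B; linarith) (by
      intro i
      have hi := i.2
      have e0 := hC (2 * (i + 1)) (by omega) (by omega)
      have e0' := hC (2 * (i + 1) + 1) (by omega) (by omega)
      have e1 : x (4 * ((i : ℕ) + 1) + ((1 : Fin 4) : ℕ)) = x (4 * ((i : ℕ) + 1) + 1) := rfl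
      have e2 : x (4 * ((i : ℕ) + 1) + ((2 : Fin 4) : ℕ)) = x (4 * ((i : ℕ) + 1) + 2) := rfl
      have e3 : x (4 * ((i : ℕ) + 1) + ((3 : Fin 4) : ℕ)) = x (4 * ((i : ℕ) + 1) + 3) := rfl
      have e4 : x (4 * ((i : ℕ) + 1) + ((0 : Fin 4) : ℕ)) = x (4 * ((i : ℕ) + 1)) := rfl
      rw [e1, e2, e3, e4]
      rw [show 2 * (2 * ((i : ℕ) + 1)) = 4 * ((i : ℕ) + 1) by ring] at e0
      rw [show 2 * (2 * ((i : ℕ) + 1) + 1) = 4 * ((i : ℕ) + 1) + 2 by ring,
        show 4 * ((i : ℕ) + 1) + 2 + 1 = 4 * ((i : ℕ) + 1) + 3 by ring] at e0'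
      have m1 : x (4 * ((i : ℕ) + 1) + 1) ≤ x (4 * ((i : ℕ) + 1)) := hx (by omega)
      have m2 : x (4 * ((i : ℕ) + 1) + 3) ≤ x (4 * ((i : ℕ) + 1) + 2) := hx (by omega)
      rw [abs_of_nonneg (by linarith), abs_of_nonneg (by linarith)]
      constructor <;> linarith) (by show 1 - x 3 ≤ 2 * C; linarith) h
  refine cov_of_pos (α := Fin 3 ⊕ (Fin (2 * a - 1) × Fin 4))
    (Sum.elim (fun i => (i : ℕ) + 1) (fun q => 4 * ((q.1 : ℕ) + 1) + q.2)) ?_ ?_ ?_ ?_ ?_
  · rintro (a' | ⟨a1, a2⟩) (b | ⟨b1, b2⟩) hab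
    · have h3 : (a' : ℕ) + 1 = b + 1 := hab
      rw [Fin.ext (by omega : (a' : ℕ) = b)]
    · have h3 : (a' : ℕ) + 1 = 4 * ((b1 : ℕ) + 1) + b2 := hab
      have := a'.2
      omega
    · have h3 : 4 * ((a1 : ℕ) + 1) + a2 = (b : ℕ) + 1 := hab
      have := b.2
      omega
    · have h3 : 4 * ((a1 : ℕ) + 1) + a2 = 4 * ((b1 : ℕ) + 1) + b2 := hab
      have := a2.2
      have := b2.2
      rw [Fin.ext (by omega : (a1 : ℕ) = b1), Fin.ext (by omega : (a2 : ℕ) = b2)]
  · rintro (a' | ⟨a1, a2⟩)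
    · show 1 ≤ (a' : ℕ) + 1
      omega
    · show 1 ≤ 4 * ((a1 : ℕ) + 1) + a2
      omega
  · rintro (a' | ⟨a1, a2⟩)
    · show (a' : ℕ) + 1 ≤ 8 * a - 1
      have := a'.2
      omega
    · show 4 * ((a1 : ℕ) + 1) + a2 ≤ 8 * a - 1
      have := a1.2
      have := a2.2
      omega
  · rw [Fintype.card_sum, Fintype.card_prod, Fintype.card_fin, Fintype.card_fin,
      Fintype.card_fin]
    omega
  · have h3 : (fun b : Fin 3 ⊕ (Fin (2 * a - 1) × Fin 4) =>
        x (Sum.elim (fun i : Fin 3 => (i : ℕ) + 1)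
          (fun q : Fin (2 * a - 1) × Fin 4 => 4 * ((q.1 : ℕ) + 1) + q.2) b)) =
        Sum.elim ![x 1, x 2, x 3]
          (fun q : Fin (2 * a - 1) × Fin 4 => x (4 * ((q.1 : ℕ) + 1) + q.2)) := by
      funext b
      rcases b with b | b
      · fin_cases b <;> rfl
      · rfl
    rw [h3]
    exact h2

/-- From the sorted values to `T`. -/
theorem T_of_sorted {N : ℕ} (hN : 1 ≤ N)
    (h : ∀ x : ℕ → ℝ, Antitone x → (∀ n, 0 ≤ x n) → (∀ n, x n ≤ 1) →
      Cov (Fin (N - 1)) 1 (fun i => x (i + 1))) : T N := by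
  intro κ _ hκ y hy
  obtain ⟨x, e, hx, h0, h1, he⟩ := exists_sorted (n := N - 1) (by omega) y hy
  apply Cov.of_abs
  refine Cov.reindex e.symm ?_
  have h2 : (fun k => |y (e.symm.symm k)|) = fun i : Fin (N - 1) => x (i + 1) := by
    funext i
    rw [Equiv.symm_symm]
    exact he i
  rw [h2]
  exact h x hx h0 h1

theorem T_one : T 1 := by
  intro κ _ hκ y _
  have : IsEmpty κ := Fintype.card_eq_zero_iff.1 (by omega)
  exact cov_of_isEmpty zero_le_one y

theorem T_two : T 2 := by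
  refine T_of_sorted (by norm_num) fun x hx h0 h1 => ?_
  exact match_std T_one le_rfl hx h0 h1 (fun k hk hk' => by omega)

theorem T_four : T 4 := by
  refine T_of_sorted (by norm_num) fun x hx h0 h1 => ?_
  refine match_std T_two (by norm_num) hx h0 h1 (fun k hk hk' => ?_)
  have : k = 1 := by omega
  subst this
  have := h1 2
  norm_num
  linarith

theorem T_eight : T 8 := by
  refine T_of_sorted (by norm_num) fun x hx h0 h1 => ?_
  rcases le_or_gt (2 * ((1 : ℕ) : ℝ)) (∑ i ∈ range (4 * 1), x (i + 1)) with h | h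
  · exact match_top (m := 1) le_rfl T_four h0 h1 h
  · simp only [Finset.sum_range_succ, Finset.sum_range_zero] at h
    norm_num at h
    refine match_std T_four (by norm_num) hx h0 h1 (fun k hk hk' => ?_)
    have e1 := h1 2
    have e2 := h0 1
    have e3 := h0 (2 * k + 1)
    rcases Nat.lt_or_ge 1 k with h2 | h2
    · have e4 : x (2 * k) ≤ x 4 := hx (by omega)
      linarith
    · have : k = 1 := by omega
      subst this
      norm_num
      linarith

theorem T_step {a : ℕ} (ha : a = 2 ∨ 4 ≤ a) (hT : T (2 * a)) (hT2 : T (4 * a)) :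
    T (8 * a) := by
  have ha1 : 1 ≤ a := by omega
  refine T_of_sorted (by omega) fun x hx h0 h1 => ?_
  rcases le_or_gt (2 * (a : ℝ)) (∑ i ∈ range (4 * a), x (i + 1)) with htop | htop
  · exact match_top ha1 hT2 h0 h1 htop
  rcases le_or_gt 5 (x 1 + x 2 + x 3 + x 4 + x 5 + x 6 + x 7) with h7 | h7
  · exact match_seven ha1 hT h0 h1 h7
  have h8 : 2 * (4 * a) - 1 = 8 * a - 1 := by omega
  -- the largest gap at an even position
  obtain ⟨m, hm, hmax⟩ := Finset.exists_max_image (Finset.Icc 1 (4 * a - 1))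
    (fun k => x (2 * k) - x (2 * k + 1)) ⟨1, by rw [Finset.mem_Icc]; omega⟩
  rw [Finset.mem_Icc] at hm
  have hc : ∀ k, 1 ≤ k → k + 1 ≤ 4 * a →
      x (2 * k) - x (2 * k + 1) ≤ x (2 * m) - x (2 * m + 1) := fun k hk hk' =>
    hmax k (by rw [Finset.mem_Icc]; omega)
  -- the block with the largest difference
  obtain ⟨j, hj, hjmax⟩ := Finset.exists_max_image (Finset.Icc 1 (2 * a - 1))
    (fun k => x (4 * k) + x (4 * k + 1) - x (4 * k + 2) - x (4 * k + 3))
    ⟨1, by rw [Finset.mem_Icc]; omega⟩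
  rw [Finset.mem_Icc] at hj
  have hb : ∀ k, 1 ≤ k → 2 * k + 2 ≤ 4 * a →
      x (4 * k) + x (4 * k + 1) - x (4 * k + 2) - x (4 * k + 3) ≤
      x (4 * j) + x (4 * j + 1) - x (4 * j + 2) - x (4 * j + 3) := fun k hk hk' =>
    hjmax k (by rw [Finset.mem_Icc]; omega)
  rcases le_or_gt (x 2 + x 3 + (x (2 * m) - x (2 * m + 1))) 2 with hstd | hstd
  · have h2 := match_std hT2 (by omega) hx h0 h1 (fun k hk hk' => by
      have := hc k hk (by omega)
      linarith)
    rw [h8] at h2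
    exact h2
  rcases le_or_gt (max ((x 4 + x 5 + x 6 + x 7) / 4) ((1 - x 2) / 2) +
      max ((x (4 * j) + x (4 * j + 1) - x (4 * j + 2) - x (4 * j + 3)) / 4) ((1 - x 1) / 2) +
      max ((x (2 * m) - x (2 * m + 1)) / 2) ((1 - x 3) / 2)) 1 with hQ | hQ
  · refine match_blocks ha1 hT hT2 hx h0 h1 (le_max_left _ _) (le_max_right _ _) ?_
      (le_max_right _ _) ?_ (le_max_right _ _) hQ
    · intro k hk hk'
      refine le_trans ?_ (le_max_left _ _)
      have := hb k hk (by omega)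
      linarith
    · intro k hk hk'
      refine le_trans ?_ (le_max_left _ _)
      have := hc k hk hk'
      linarith
  have hN : (4 * a : ℕ) = 8 ∨ 16 ≤ 4 * a := by omega
  have htop' : ∑ i ∈ range (4 * a), x (i + 1) < ((4 * a : ℕ) : ℝ) / 2 := by
    push_cast
    linarith
  rcases numeric hN hx h0 h1 hm.1 (by omega) hc hj.1 (by omega) hb hstd hQ h7 htop' with
    ⟨h2, h3⟩ | ⟨h2, h3, h4, h5, h6⟩
  · have := match_next hT2 (by omega) hx h0 h1 hm.1 h2 hc h3
    rw [h8] at this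
    exact this
  · have := match_prev hT2 (by omega) hx h0 h1 (by omega) (by omega) hc h3 h4 h5 h6
    rw [h8] at this
    exact this

/-- **All powers of two.** -/
theorem T_two_pow (k : ℕ) : T (2 ^ k) := by
  have key : ∀ k, T (2 ^ k) ∧ T (2 ^ (k + 1)) := by
    intro k
    induction k with
    | zero => exact ⟨T_one, T_two⟩
    | succ k ih =>
      refine ⟨ih.2, ?_⟩
      match k, ih with
      | 0, _ => exact T_four
      | 1, _ => exact T_eight
      | k + 2, ih =>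
        have h1 : T (2 * 2 ^ (k + 1)) := by
          have := ih.1
          rwa [pow_succ, mul_comm] at this
        have h2 : T (4 * 2 ^ (k + 1)) := by
          have h3 := ih.2
          rwa [show 2 ^ (k + 2 + 1) = 4 * 2 ^ (k + 1) by ring] at h3
        have h3 := T_step (a := 2 ^ (k + 1)) (by
          rcases k with _ | k
          · left; norm_num
          · right
            have : 1 ≤ 2 ^ k := Nat.one_le_two_pow
            rw [show 2 ^ (k + 1 + 1) = 4 * 2 ^ k by ring]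
            omega) h1 h2
        rwa [show 8 * 2 ^ (k + 1) = 2 ^ (k + 2 + 1 + 1) by ring] at h3
  exact (key k).1

end Pool.Agent.Helper42.VR
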