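import Pool.Agent.Helper42.VR.Pow.Defs

/-!
# Unions of families of sign vectors
-/

set_option autoImplicit false

namespace Pool.Agent.Helper42.VR

open Finset

/-- A weighted family of sign vectors in `P` with total weight `μ`, weighted sum `y` and pairwise
inner products at least `-D`. -/
def PC (ι : Type) [Fintype ι] (D : ℝ) (P : (ι → ℝ) → Prop) (μ : ℝ) (y : ι → ℝ) : Prop :=
  ∃ (J : Type) (_ : Fintype J) (w : J → ℝ) (v : J → ι → ℝ), (∀ j, 0 ≤ w j) ∧ ∑ j, w j = μ ∧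
    (∀ j i, v j i = 1 ∨ v j i = -1) ∧ (∀ i, ∑ j, w j * v j i = y i) ∧
    (∀ j j', w j ≠ 0 → w j' ≠ 0 → -D ≤ ∑ i, v j i * v j' i) ∧ ∀ j, w j ≠ 0 → P (v j)

theorem PC.toCov {ι : Type} [Fintype ι] {D : ℝ} {P : (ι → ℝ) → Prop} {y : ι → ℝ}
    (h : PC ι D P 1 y) : Cov ι D y := by
  obtain ⟨J, hJ, w, v, h1, h2, h3, h4, h5, -⟩ := h
  exact ⟨J, hJ, w, v, h1, h2, h3, h4, h5⟩

theorem PC.congr {ι : Type} [Fintype ι] {D : ℝ} {P : (ι → ℝ) → Prop} {μ μ' : ℝ} {y y' : ι → ℝ}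
    (h : PC ι D P μ y) (hμ : μ = μ') (hy : ∀ i, y i = y' i) : PC ι D P μ' y' := by
  have : y = y' := funext hy
  rw [← hμ, ← this]
  exact h

theorem PC.union {ι : Type} [Fintype ι] {D : ℝ} {P Q : (ι → ℝ) → Prop} {μ ν : ℝ} {y z : ι → ℝ}
    (h : PC ι D P μ y) (h' : PC ι D Q ν z)
    (hPQ : ∀ u v, P u → Q v → -D ≤ ∑ i, u i * v i) :
    PC ι D (fun u => P u ∨ Q u) (μ + ν) (fun i => y i + z i) := by
  obtain ⟨J, hJ, w, v, h1, h2, h3, h4, h5, h6⟩ := h
  obtain ⟨J', hJ', w', v', h1', h2', h3', h4', h5', h6'⟩ := h'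
  refine ⟨J ⊕ J', inferInstance, Sum.elim w w', Sum.elim v v', ?_, ?_, ?_, ?_, ?_, ?_⟩
  · rintro (j | j)
    · exact h1 j
    · exact h1' j
  · rw [Fintype.sum_sum_type]
    simp only [Sum.elim_inl, Sum.elim_inr, h2, h2']
  · rintro (j | j) i
    · exact h3 j i
    · exact h3' j i
  · intro i
    rw [Fintype.sum_sum_type]
    simp only [Sum.elim_inl, Sum.elim_inr, h4, h4']
  · rintro (j | j) (j' | j') hj hj'
    · exact h5 j j' hj hj'
    · exact hPQ _ _ (h6 j hj) (h6' j' hj')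
    · have := hPQ _ _ (h6 j' hj') (h6' j hj)
      simp only [Sum.elim_inl, Sum.elim_inr]
      simpa only [mul_comm] using this
    · exact h5' j j' hj hj'
  · rintro (j | j) hj
    · exact Or.inl (h6 j hj)
    · exact Or.inr (h6' j hj)

/-- Every coordinate of the new vectors is `±` a coordinate of the old ones, or constant. -/
def Form {κ ι : Type} (g : ι → Option κ) (ε : ι → ℝ) (x : ι → ℝ) : Prop :=
  ∃ v : κ → ℝ, (∀ k, v k = 1 ∨ v k = -1) ∧ x = fun i => ε i * (g i).elim 1 v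

theorem PC.push {κ ι : Type} [Fintype κ] [Fintype ι] {D' D μ : ℝ} {t : κ → ℝ} (hμ : 0 ≤ μ)
    (h : μ ≠ 0 → Cov κ D' (fun k => t k / μ)) (h0 : μ = 0 → ∀ k, t k = 0) (g : ι → Option κ)
    (ε : ι → ℝ) (hε : ∀ i, ε i = 1 ∨ ε i = -1)
    (hD : ∀ u v : κ → ℝ, (∀ k, u k = 1 ∨ u k = -1) → (∀ k, v k = 1 ∨ v k = -1) →
      -D' ≤ ∑ k, u k * v k → -D ≤ ∑ i, ε i * (g i).elim 1 u * (ε i * (g i).elim 1 v)) :
    PC ι D (Form g ε) μ (fun i => ε i * (g i).elim μ t) := by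
  rcases eq_or_ne μ 0 with hμ0 | hμ0
  · refine ⟨Empty, inferInstance, fun j => j.elim, fun j => j.elim, fun j => j.elim, ?_,
      fun j => j.elim, fun i => ?_, fun j => j.elim, fun j => j.elim⟩
    · simp [hμ0]
    · have h1 := h0 hμ0
      rcases hg : g i with _ | k
      · simp [hg, hμ0]
      · simp [hg, h1 k]
  · obtain ⟨J, hJ, w, v, h1, h2, h3, h4, h5⟩ := h hμ0
    have hsgn : ∀ j i, ε i * (g i).elim 1 (v j) = 1 ∨ ε i * (g i).elim 1 (v j) = -1 := by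
      intro j i
      rcases hg : g i with _ | k
      · simpa [hg] using hε i
      · rcases hε i with h | h <;> rcases h3 j k with h' | h' <;> simp [hg, h, h']
    refine ⟨J, hJ, fun j => μ * w j, fun j i => ε i * (g i).elim 1 (v j),
      fun j => mul_nonneg hμ (h1 j), ?_, hsgn, ?_, ?_, ?_⟩
    · rw [← Finset.mul_sum, h2, mul_one]
    · intro i
      rcases hg : g i with _ | k
      · simp only [hg, Option.elim_none, mul_one]
        rw [← Finset.sum_mul, ← Finset.mul_sum, h2, mul_one, mul_comm]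
      · simp only [hg, Option.elim_some]
        have h6 : ∀ j, μ * w j * (ε i * v j k) = μ * ε i * (w j * v j k) := fun j => by ring
        simp only [h6]
        rw [← Finset.mul_sum, h4 k]
        field_simp
    · intro j j' hj hj'
      exact hD (v j) (v j') (h3 j) (h3 j') (h5 j j' (right_ne_zero_of_mul hj)
        (right_ne_zero_of_mul hj'))
    · intro j _
      exact ⟨v j, h3 j, rfl⟩

/-- One coordinate is `± 1`. -/
theorem cov_of_abs_eq_one {N : ℕ} (hT : T N) {κ : Type} [Fintype κ] (hκ : Fintype.card κ = N)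
    {y : κ → ℝ} (hy : ∀ k, |y k| ≤ 1) {k₀ : κ} (hk : |y k₀| = 1) : Cov κ 0 y := by
  classical
  have h1 : Cov {k // k = k₀} (-1) (fun k => y k) := by
    refine ⟨Unit, inferInstance, fun _ => 1, fun _ k => y k, fun _ => zero_le_one, by simp,
      ?_, by simp, ?_⟩
    · rintro _ ⟨k, rfl⟩
      exact eq_or_eq_neg_of_abs_eq hk
    · intro _ _ _ _
      have h2 : y k₀ * y k₀ = 1 := by
        rw [← abs_mul_abs_self, hk, one_mul]
      have h3 : ∀ k : {k // k = k₀}, y k * y k = 1 := by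
        rintro ⟨k, rfl⟩
        exact h2
      simp only [h3, Finset.sum_const, nsmul_eq_mul, mul_one, neg_neg]
      have : Fintype.card {k // k = k₀} = 1 := Fintype.card_subtype_eq k₀
      rw [Finset.card_univ, this]
      norm_num
  have h2 : Cov {k // ¬ k = k₀} 1 (fun k => y k) := by
    refine hT {k // ¬ k = k₀} ?_ (fun k => y k) (fun k => hy k)
    rw [Fintype.card_subtype_compl, Fintype.card_subtype_eq, hκ]
    have : 0 < Fintype.card κ := Fintype.card_pos_iff.2 ⟨k₀⟩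
    omega
  have h3 := Cov.split (fun k => k = k₀) (Cov.inst _ _ h1) (Cov.inst _ _ h2)
  exact Cov.mono h3 (by norm_num)

theorem PC.pushZ {N : ℕ} (hT : T N) {κ ι : Type} [Fintype κ] [Fintype ι]
    (hκ : Fintype.card κ = N) {D μ : ℝ} {t : κ → ℝ} (hμ : 0 ≤ μ) (ht : ∀ k, |t k| ≤ μ)
    (hk : ∃ k, |t k| = μ) (g : ι → Option κ) (ε : ι → ℝ) (hε : ∀ i, ε i = 1 ∨ ε i = -1)
    (hD : ∀ u v : κ → ℝ, (∀ k, u k = 1 ∨ u k = -1) → (∀ k, v k = 1 ∨ v k = -1) →
      0 ≤ ∑ k, u k * v k → -D ≤ ∑ i, ε i * (g i).elim 1 u * (ε i * (g i).elim 1 v)) :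
    PC ι D (Form g ε) μ (fun i => ε i * (g i).elim μ t) := by
  refine PC.push (D' := 0) hμ (fun hμ0 => ?_) (fun hμ0 k => ?_) g ε hε
    (fun u v hu hv huv => hD u v hu hv (by simpa using huv))
  · have hpos : 0 < μ := lt_of_le_of_ne hμ (Ne.symm hμ0)
    obtain ⟨k, hk⟩ := hk
    refine cov_of_abs_eq_one hT hκ (fun k => ?_) (k₀ := k) ?_
    · rw [abs_div, abs_of_pos hpos]
      exact div_le_one_of_le₀ (ht k) hμ
    · rw [abs_div, abs_of_pos hpos, hk, div_self hμ0]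
  · have := ht k
    rw [hμ0] at this
    exact abs_nonpos_iff.1 this

theorem PC.pushT {N : ℕ} (hT : T N) {κ ι : Type} [Fintype κ] [Fintype ι]
    (hκ : Fintype.card κ + 1 = N) {D μ : ℝ} {t : κ → ℝ} (hμ : 0 ≤ μ) (ht : ∀ k, |t k| ≤ μ)
    (g : ι → Option κ) (ε : ι → ℝ) (hε : ∀ i, ε i = 1 ∨ ε i = -1)
    (hD : ∀ u v : κ → ℝ, (∀ k, u k = 1 ∨ u k = -1) → (∀ k, v k = 1 ∨ v k = -1) →
      -1 ≤ ∑ k, u k * v k → -D ≤ ∑ i, ε i * (g i).elim 1 u * (ε i * (g i).elim 1 v)) :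
    PC ι D (Form g ε) μ (fun i => ε i * (g i).elim μ t) := by
  refine PC.push (D' := 1) hμ (fun hμ0 => ?_) (fun hμ0 k => ?_) g ε hε hD
  · have hpos : 0 < μ := lt_of_le_of_ne hμ (Ne.symm hμ0)
    refine hT _ hκ _ (fun k => ?_)
    rw [abs_div, abs_of_pos hpos]
    exact div_le_one_of_le₀ (ht k) hμ
  · have := ht k
    rw [hμ0] at this
    exact abs_nonpos_iff.1 this

/-- The maximum of the absolute values. -/
theorem exists_abs_max {ι : Type} [Fintype ι] (a : ι → ℝ) :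
    ∃ A, 0 ≤ A ∧ (∀ i, |a i| ≤ A) ∧ (A = 0 ∨ ∃ i, |a i| = A) := by
  rcases isEmpty_or_nonempty ι with h | h
  · exact ⟨0, le_rfl, fun i => isEmptyElim i, Or.inl rfl⟩
  · obtain ⟨i, hi⟩ := Finite.exists_max (fun i => |a i|)
    exact ⟨|a i|, abs_nonneg _, hi, Or.inr ⟨i, rfl⟩⟩

end Pool.Agent.Helper42.VR
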